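import Mathlib
import Pool.Agent.Lib.MP_be768e_al.Gram
import Pool.Agent.Lib.MP_be768e_al.Main

/-!
The grammic monoid of rank `n` is not finitely presented for any `n ≥ 5`.

Here `GrammicMonoid n` is the quotient of the free monoid over `Fin n` by the grammic congruence
`gramCon n`, which relates two words iff, for every interval `[p, q]` of letters, the largest
length of a weakly increasing scattered subsequence with letters in `[p, q]` is the same for both
words.  `FinPres M` says that `M` is isomorphic to a monoid given by a finite set of generators
and a finite set of defining relations.

Idea of the proof. With letters numbered from `1`, for each `m ≥ 3` the words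
`4 3 5^m 2^(m-1) 4^2 1^m 2` and `5 4^2 5^(m-1) 2^(m-1) 3 4 1^m 2` are grammically equivalent.
In each word of their class let `b` be the number of letters `4` before the unique letter `3`.
Then `b` equals `1` for the first word and `2` for the second one, and the condition `b = 1` is
invariant under replacing a proper factor by a grammically equivalent one. So no set of relations
between words shorter than these two words can connect them.
-/

namespace Pool.Agent.Results.MP_be768e_al.NotFinPres

open Pool.Agent.Lib.MP_be768e_al

/-- For every `n ≥ 5` the grammic monoid of rank `n` is not finitely presented. -/
theorem result : ∀ n : ℕ, 5 ≤ n → ¬ FinPres (GrammicMonoid n) :=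
  fun n hn => not_finPres n hn

end Pool.Agent.Results.MP_be768e_al.NotFinPres
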